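import Pool.Agent.Y34.HB.Stm3
import Pool.Agent.Y34.HB.Basic
import Pool.Agent.Y34.HB.Shape

/-!
# HQ-ASY: flats which are close along a cone are close as parametrised flats
-/

set_option autoImplicit false

universe u v

open Metric Set Filter Topology
open Pool.Agent.TH60.FP Pool.Agent.Y34.HB

namespace Pool.Agent.Y872.HB

section

variable {X : Type u} [MetricSpace X] {k : ℕ} (f h : E k → X)

/-- the rays with the directions `ξ` and `η` do not diverge -/
def PP (ξ η : E k) : Prop := ∀ (v w : E k) (t : ℝ), 0 ≤ t →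
  dist (f (v + t • ξ)) (h (w + t • η)) ≤ dist (f v) (h w)

variable {f h}

theorem PP_zero : PP f h 0 0 := by
  intro v w t _
  simp

theorem PP_add {ξ η ξ' η' : E k} (h1 : PP f h ξ η) (h2 : PP f h ξ' η') :
    PP f h (ξ + ξ') (η + η') := by
  intro v w t ht
  have e1 : v + t • (ξ + ξ') = (v + t • ξ') + t • ξ := by rw [smul_add]; abel
  have e2 : w + t • (η + η') = (w + t • η') + t • η := by rw [smul_add]; abel
  rw [e1, e2]
  exact (h1 _ _ t ht).trans (h2 _ _ t ht)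

theorem PP_smul {ξ η : E k} (h1 : PP f h ξ η) {c : ℝ} (hc : 0 ≤ c) :
    PP f h (c • ξ) (c • η) := by
  intro v w t ht
  rw [smul_smul, smul_smul]
  exact h1 v w (t * c) (mul_nonneg ht hc)

theorem le_of_lin {a b D : ℝ} (h : ∀ t : ℝ, 0 ≤ t → t * a ≤ D + t * b) : a ≤ b := by
  by_contra hc
  push Not at hc
  have h1 : 0 < a - b := by linarith
  have h2 := h ((|D| + 1) / (a - b)) (by positivity)
  have h3 : (|D| + 1) / (a - b) * a = (|D| + 1) / (a - b) * b + (|D| + 1) := by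
    field_simp
    ring
  rw [h3] at h2
  have h4 := le_abs_self D
  linarith

theorem PP_norm (hf : Isometry f) (hh : Isometry h) {ξ η ξ' η' : E k} (h1 : PP f h ξ η)
    (h2 : PP f h ξ' η') : ‖η - η'‖ = ‖ξ - ξ'‖ := by
  have key : ∀ t : ℝ, 0 ≤ t → dist (f (t • ξ)) (h (t • η)) ≤ dist (f 0) (h 0) ∧
      dist (f (t • ξ')) (h (t • η')) ≤ dist (f 0) (h 0) := by
    intro t ht
    have a1 := h1 0 0 t ht
    have a2 := h2 0 0 t ht
    rw [zero_add, zero_add] at a1 a2
    exact ⟨a1, a2⟩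
  have d1 : ∀ t : ℝ, 0 ≤ t → dist (h (t • η)) (h (t • η')) = t * ‖η - η'‖ := by
    intro t ht
    rw [hh.dist_eq, dist_eq_norm, ← smul_sub, norm_smul, Real.norm_of_nonneg ht]
  have d2 : ∀ t : ℝ, 0 ≤ t → dist (f (t • ξ)) (f (t • ξ')) = t * ‖ξ - ξ'‖ := by
    intro t ht
    rw [hf.dist_eq, dist_eq_norm, ← smul_sub, norm_smul, Real.norm_of_nonneg ht]
  apply le_antisymm
  · apply le_of_lin (D := 2 * dist (f 0) (h 0))
    intro t ht
    rw [← d1 t ht, ← d2 t ht]
    obtain ⟨a1, a2⟩ := key t ht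
    have a3 := dist_triangle4 (h (t • η)) (f (t • ξ)) (f (t • ξ')) (h (t • η'))
    rw [dist_comm (h (t • η)) (f (t • ξ))] at a3
    linarith
  · apply le_of_lin (D := 2 * dist (f 0) (h 0))
    intro t ht
    rw [← d1 t ht, ← d2 t ht]
    obtain ⟨a1, a2⟩ := key t ht
    have a3 := dist_triangle4 (f (t • ξ)) (h (t • η)) (h (t • η')) (f (t • ξ'))
    rw [dist_comm (h (t • η')) (f (t • ξ'))] at a3
    linarith

/-- the distance between two lines is convex -/
theorem conv_lines (hX : CN X) (hf : Isometry f) (hh : Isometry h) (z z' w w' : E k) {s : ℝ}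
    (hs0 : 0 ≤ s) (hs1 : s ≤ 1) : dist (f (z + s • z')) (h (w + s • w')) ≤
      (1 - s) * dist (f z) (h w) + s * dist (f (z + z')) (h (w + w')) := by
  have hc : Continuous fun s : ℝ => dist (f (z + s • z')) (h (w + s • w')) := by
    have c1 := hf.continuous
    have c2 := hh.continuous
    fun_prop
  have hm : ∀ x y : ℝ, dist (f (z + ((x + y) / 2) • z')) (h (w + ((x + y) / 2) • w')) ≤
      (dist (f (z + x • z')) (h (w + x • w')) + dist (f (z + y • z')) (h (w + y • w'))) / 2 := by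
    intro x y
    have h1 := convex_mid hX hf hh (z + x • z') (z + y • z') (w + x • w') (w + y • w')
    have e : ∀ p q : E k, midpoint ℝ (p + x • q) (p + y • q) = p + ((x + y) / 2) • q := by
      intro p q
      rw [midpoint_eq_smul_add, invOf_eq_inv]
      module
    rw [e, e] at h1
    exact h1
  have h2 := (convexOn_of_mid hc hm).2 (mem_univ 0) (mem_univ 1) (by linarith : 0 ≤ 1 - s) hs0
    (by ring)
  simp only [smul_eq_mul, mul_zero, mul_one, zero_add, zero_smul, add_zero, one_smul] at h2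
  exact h2

/-- step 1 -/
theorem exists_PP (hX : CN X) (hf : Isometry f) (hh : Isometry h) {u : E k} {δ M : ℝ}
    (hM : ∀ v ∈ Cone u δ, infDist (f v) (range h) ≤ M) {ξ : E k} (hξ : ξ ∈ Cone u δ) :
    ∃ η, PP f h ξ η := by
  have hcone : ∀ n : ℕ, (n : ℝ) • ξ ∈ Cone u δ := by
    intro n
    obtain ⟨t, ht, h1⟩ := hξ
    refine ⟨n * t, by positivity, ?_⟩
    have e : (n : ℝ) • ξ - ((n : ℝ) * t) • u = (n : ℝ) • (ξ - t • u) := by
      rw [smul_sub, smul_smul]
    rw [e, norm_smul, Real.norm_of_nonneg (Nat.cast_nonneg n)]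
    calc (n : ℝ) * ‖ξ - t • u‖ ≤ n * (δ * t) := mul_le_mul_of_nonneg_left h1 (Nat.cast_nonneg n)
      _ = δ * (n * t) := by ring
  have hM0 : 0 ≤ M := infDist_nonneg.trans (hM _ hξ)
  have hex : ∀ n : ℕ, ∃ w : E k, dist (f ((n : ℝ) • ξ)) (h w) < M + 1 := by
    intro n
    have h1 : infDist (f ((n : ℝ) • ξ)) (range h) < M + 1 := by
      have := hM _ (hcone n)
      linarith
    obtain ⟨_, ⟨w, rfl⟩, hw⟩ := (infDist_lt_iff (range_nonempty h)).1 h1
    exact ⟨w, hw⟩
  choose w hw using hex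
  have hwn : ∀ n : ℕ, ‖w n‖ ≤ M + 1 + n * ‖ξ‖ + dist (f 0) (h 0) := by
    intro n
    have a1 := dist_triangle4 (h (w n)) (f ((n : ℝ) • ξ)) (f 0) (h 0)
    rw [hh.dist_eq, hf.dist_eq, dist_zero_right, dist_zero_right, norm_smul,
      Real.norm_of_nonneg (Nat.cast_nonneg n), dist_comm (h (w n))] at a1
    have a2 := hw n
    linarith
  set q : ℕ → E k := fun n => (((n + 1 : ℕ) : ℝ)⁻¹) • w (n + 1) with hq
  have hqb : ∀ n, q n ∈ closedBall (0 : E k) (M + 1 + ‖ξ‖ + dist (f 0) (h 0)) := by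
    intro n
    rw [mem_closedBall, dist_zero_right, hq]
    simp only
    have hn : (1 : ℝ) ≤ ((n + 1 : ℕ) : ℝ) := by
      push_cast
      have := Nat.cast_nonneg (α := ℝ) n
      linarith
    rw [norm_smul, Real.norm_of_nonneg (by positivity), inv_mul_le_iff₀ (by linarith)]
    have a1 := hwn (n + 1)
    have a2 : 0 ≤ dist (f 0) (h 0) := dist_nonneg
    nlinarith [norm_nonneg ξ]
  obtain ⟨η, _, φ, hφ, hlim⟩ := (isCompact_closedBall (0 : E k) _).tendsto_subseq hqb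
  refine ⟨η, fun v w' t ht => ?_⟩
  have hN : Tendsto (fun j => ((φ j + 1 : ℕ) : ℝ)) atTop atTop :=
    tendsto_natCast_atTop_atTop.comp ((tendsto_add_atTop_nat 1).comp hφ.tendsto_atTop)
  have hinv : Tendsto (fun j => t / ((φ j + 1 : ℕ) : ℝ)) atTop (𝓝 0) :=
    Tendsto.div_atTop tendsto_const_nhds hN
  have hL : Tendsto (fun j => dist (f (v + t • ξ))
      (h (w' + (t • q (φ j) - (t / ((φ j + 1 : ℕ) : ℝ)) • w')))) atTop
      (𝓝 (dist (f (v + t • ξ)) (h (w' + (t • η - (0 : ℝ) • w'))))) := by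
    refine tendsto_const_nhds.dist ?_
    refine (hh.continuous.tendsto _).comp ?_
    refine tendsto_const_nhds.add ?_
    exact (hlim.const_smul t).sub (hinv.smul_const w')
  have hR : Tendsto (fun j => dist (f v) (h w') + (t / ((φ j + 1 : ℕ) : ℝ)) * (‖v‖ + (M + 1)))
      atTop (𝓝 (dist (f v) (h w') + 0 * (‖v‖ + (M + 1)))) :=
    tendsto_const_nhds.add (hinv.mul_const _)
  rw [zero_smul, sub_zero] at hL
  rw [zero_mul, add_zero] at hR
  refine le_of_tendsto_of_tendsto hL hR ?_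
  filter_upwards [hN.eventually (eventually_ge_atTop t)] with j hj
  set N : ℕ := φ j + 1 with hNdef
  have hN0 : (0 : ℝ) < (N : ℝ) := by
    rw [hNdef]
    positivity
  have hs0 : 0 ≤ t / (N : ℝ) := by positivity
  have hs1 : t / (N : ℝ) ≤ 1 := by
    rw [div_le_one hN0]
    exact hj
  have a1 := conv_lines hX hf hh v ((N : ℝ) • ξ) w' (w N - w') hs0 hs1
  have e1 : v + (t / (N : ℝ)) • ((N : ℝ) • ξ) = v + t • ξ := by
    rw [smul_smul, div_mul_cancel₀ _ hN0.ne']
  have e2 : w' + (t / (N : ℝ)) • (w N - w') = w' + (t • q (φ j) - (t / (N : ℝ)) • w') := by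
    rw [hq]
    simp only
    rw [← hNdef, smul_smul, smul_sub, div_eq_mul_inv]
  rw [e1, e2, add_sub_cancel] at a1
  have a2 : dist (f (v + (N : ℝ) • ξ)) (h (w N)) ≤ ‖v‖ + (M + 1) := by
    have b1 := dist_triangle (f (v + (N : ℝ) • ξ)) (f ((N : ℝ) • ξ)) (h (w N))
    rw [hf.dist_eq, dist_eq_norm, add_sub_cancel_right] at b1
    have b2 := hw N
    linarith
  have a3 : (1 - t / (N : ℝ)) * dist (f v) (h w') ≤ 1 * dist (f v) (h w') :=
    mul_le_mul_of_nonneg_right (by linarith) dist_nonneg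
  have a4 := mul_le_mul_of_nonneg_left a2 hs0
  linarith

/-- the relation which defines the isometry -/
def Rel (f h : E k → X) (x y : E k) : Prop :=
  ∃ ξ η ζ θ : E k, PP f h ξ η ∧ PP f h ζ θ ∧ x = ξ - ζ ∧ y = η - θ

theorem Rel_norm (hf : Isometry f) (hh : Isometry h) {x y : E k} (h1 : Rel f h x y) :
    ‖y‖ = ‖x‖ := by
  obtain ⟨ξ, η, ζ, θ, a, b, rfl, rfl⟩ := h1
  exact PP_norm hf hh a b

theorem Rel_add {x y x' y' : E k} (h1 : Rel f h x y) (h2 : Rel f h x' y') :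
    Rel f h (x + x') (y + y') := by
  obtain ⟨ξ, η, ζ, θ, a, b, rfl, rfl⟩ := h1
  obtain ⟨ξ', η', ζ', θ', a', b', rfl, rfl⟩ := h2
  exact ⟨ξ + ξ', η + η', ζ + ζ', θ + θ', PP_add a a', PP_add b b', by abel, by abel⟩

theorem Rel_neg {x y : E k} (h1 : Rel f h x y) : Rel f h (-x) (-y) := by
  obtain ⟨ξ, η, ζ, θ, a, b, rfl, rfl⟩ := h1
  exact ⟨ζ, θ, ξ, η, b, a, by abel, by abel⟩

theorem Rel_smul {x y : E k} (h1 : Rel f h x y) (c : ℝ) : Rel f h (c • x) (c • y) := by
  have hpos : ∀ {x y : E k}, Rel f h x y → ∀ c : ℝ, 0 ≤ c → Rel f h (c • x) (c • y) := by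
    intro x y h1 c hc
    obtain ⟨ξ, η, ζ, θ, a, b, rfl, rfl⟩ := h1
    exact ⟨c • ξ, c • η, c • ζ, c • θ, PP_smul a hc, PP_smul b hc, smul_sub _ _ _,
      smul_sub _ _ _⟩
  rcases le_total 0 c with hc | hc
  · exact hpos h1 c hc
  · have h2 := hpos (Rel_neg h1) (-c) (by linarith)
    rw [neg_smul_neg, neg_smul_neg] at h2
    exact h2

theorem Rel_unique (hf : Isometry f) (hh : Isometry h) {x y y' : E k} (h1 : Rel f h x y)
    (h2 : Rel f h x y') : y = y' := by
  have h3 := Rel_norm hf hh (Rel_add h1 (Rel_neg h2))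
  rw [← sub_eq_add_neg, ← sub_eq_add_neg, sub_self, norm_zero, norm_eq_zero] at h3
  exact sub_eq_zero.1 h3

end

/-- ASY -/
theorem t : S_ASY.{u} := by
  intro X _ hX k f h hf hh u δ M hu hδ hM
  have htot : ∀ x : E k, ∃ y, Rel f h x y := by
    intro x
    have hc : 0 ≤ ‖x‖ / δ := by positivity
    have m1 : x + (‖x‖ / δ) • u ∈ Cone u δ := by
      refine ⟨‖x‖ / δ, hc, ?_⟩
      rw [add_sub_cancel_right, mul_div_cancel₀ _ hδ.ne']
    have m2 : (‖x‖ / δ) • u ∈ Cone u δ := by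
      refine ⟨‖x‖ / δ, hc, ?_⟩
      rw [sub_self, norm_zero]
      positivity
    obtain ⟨η, h1⟩ := exists_PP hX hf hh hM m1
    obtain ⟨θ, h2⟩ := exists_PP hX hf hh hM m2
    exact ⟨η - θ, _, η, _, θ, h1, h2, (add_sub_cancel_right _ _).symm, rfl⟩
  choose A hA using htot
  let L : E k →ₗᵢ[ℝ] E k :=
    { toFun := A
      map_add' := fun x y => Rel_unique hf hh (hA (x + y)) (Rel_add (hA x) (hA y))
      map_smul' := fun c x => Rel_unique hf hh (hA (c • x)) (Rel_smul (hA x) c)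
      norm_map' := fun x => Rel_norm hf hh (hA x) }
  refine ⟨L.toLinearIsometryEquiv rfl, fun w v hv => ?_⟩
  obtain ⟨η, h1⟩ := exists_PP hX hf hh hM hv
  have h2 : Rel f h v η := ⟨v, η, 0, 0, h1, PP_zero, (sub_zero _).symm, (sub_zero _).symm⟩
  have h3 : (L.toLinearIsometryEquiv rfl) v = η := by
    rw [LinearIsometry.coe_toLinearIsometryEquiv]
    exact Rel_unique hf hh (hA v) h2
  rw [h3]
  have h4 := h1 0 w 1 zero_le_one
  rw [one_smul, one_smul, zero_add] at h4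
  exact h4

end Pool.Agent.Y872.HB
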